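import Pool.Agent.helper26.AP.SpecQ

set_option autoImplicit false

namespace Pool.Agent.AP

open Finset NumberField Pool.Agent.helper3.FT Pool.Agent.helper47.RA Pool.Agent.T5

theorem QS3_sum (A : ℝ) (s t : Finset ℕ) (f g : ℕ → ℝ) :
    ∑ r ∈ s, ∑ q ∈ t, A * f r * g q = A * (∑ r ∈ s, f r) * (∑ q ∈ t, g q) := by
  rw [mul_assoc, Finset.sum_mul_sum, Finset.mul_sum]
  refine Finset.sum_congr rfl fun r _ => ?_
  rw [Finset.mul_sum]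
  refine Finset.sum_congr rfl fun q _ => ?_
  ring

theorem QS3_PP (w : ℕ) : PP w ≠ 0 := by
  refine Finset.prod_ne_zero_iff.mpr fun q hq => ?_
  simp only [pr, Finset.mem_filter] at hq
  exact hq.2.ne_zero

/-- the bound for one pair `(r, q)` -/
theorem QS3_one (p : ℕ) (h5 : 5 ≤ p) (hQP1 : QP1_stmt) (e C δ N Y : ℝ) (r q : ℕ) (he : 0 < e) (hC : 1 ≤ C)
    (hN : 1 ≤ N) (hY1 : 1 ≤ Y) (hYN : Y ≤ N) (hr : 1 ≤ r) (hq : 1 ≤ q) (hqN : (q : ℝ) ≤ N)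
    (hs : √(Y ^ p / N) ≤ N ^ (1 / 2 - 2 * δ)) :
    C * ((N / (q : ℝ) ^ 2) * (Y / ((r : ℝ) * q)) * ((r * q ^ (p - 2) : ℕ) : ℝ) * ((1 : ℕ) : ℝ)) ^ e *
      ((Y / ((r : ℝ) * q)) * √(N / (q : ℝ) ^ 2) / ((r : ℝ) * (((1 : ℕ) : ℝ)) ^ 2) +
        (Y / ((r : ℝ) * q)) * VV p (N / (q : ℝ) ^ 2) (r * q ^ (p - 2)) (Y / ((r : ℝ) * q))) ≤
    C * N ^ ((p : ℝ) * e) * (Y * √N) * (1 / (r : ℝ) ^ 2) * (1 / (q : ℝ) ^ 2) +
      C * N ^ ((p : ℝ) * e) * (2 * Y * N ^ (1 / 2 - 2 * δ)) * (1 / (r : ℝ) ^ 2) * (1 / (q : ℝ)) := by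
  have hN0 : 0 < N := by linarith
  have hY0 : 0 < Y := by linarith
  have hr0 : (0 : ℝ) < r := by exact_mod_cast hr
  have hq0 : (0 : ℝ) < q := by exact_mod_cast hq
  obtain ⟨hv1, hv2⟩ := hQP1 p N Y r q h5 hN0 hY0 hr hq
  rw [hv2]
  have hbase : (N / (q : ℝ) ^ 2) * (Y / ((r : ℝ) * q)) * ((r * q ^ (p - 2) : ℕ) : ℝ) * ((1 : ℕ) : ℝ) =
      N * Y * (q : ℝ) ^ (p - 5) := by
    obtain ⟨m, rfl⟩ : ∃ m, p = m + 5 := ⟨p - 5, by omega⟩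
    have e1 : m + 5 - 2 = m + 3 := by omega
    have e2 : m + 5 - 5 = m := by omega
    rw [e1, e2]
    push_cast
    field_simp
    ring
  have hb2 : N * Y * (q : ℝ) ^ (p - 5) ≤ N ^ p := by
    calc N * Y * (q : ℝ) ^ (p - 5) ≤ N * N * N ^ (p - 5) := by gcongr
      _ = N ^ (p - 3) := by
        rw [← pow_two, ← pow_add]
        congr 1
        omega
      _ ≤ N ^ p := pow_le_pow_right₀ hN (by omega)
  have hb3 : (N * Y * (q : ℝ) ^ (p - 5)) ^ e ≤ N ^ ((p : ℝ) * e) := by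
    rw [Real.rpow_mul hN0.le, Real.rpow_natCast]
    exact Real.rpow_le_rpow (by positivity) hb2 he.le
  rw [hbase]
  have hsq : √(N / (q : ℝ) ^ 2) = √N / q := by
    rw [Real.sqrt_div hN0.le, Real.sqrt_sq hq0.le]
  rw [hsq]
  have hsec : (Y / ((r : ℝ) * q)) * (√N / q) / ((r : ℝ) * (((1 : ℕ) : ℝ)) ^ 2) +
        (Y / ((r : ℝ) * q)) * VV p N r (Y / r) ≤
      (Y * √N) * (1 / (r : ℝ) ^ 2) * (1 / (q : ℝ) ^ 2) +
      (2 * Y * N ^ (1 / 2 - 2 * δ)) * (1 / (r : ℝ) ^ 2) * (1 / (q : ℝ)) := by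
    apply add_le_add
    · apply le_of_eq
      push_cast
      field_simp
    · calc (Y / ((r : ℝ) * q)) * VV p N r (Y / r) ≤ (Y / ((r : ℝ) * q)) * (2 * N ^ (1 / 2 - 2 * δ) / r) := by
            apply mul_le_mul_of_nonneg_left _ (by positivity)
            refine hv1.trans ?_
            gcongr
        _ = _ := by
            field_simp
  have hpos : 0 ≤ (Y / ((r : ℝ) * q)) * (√N / q) / ((r : ℝ) * (((1 : ℕ) : ℝ)) ^ 2) +
        (Y / ((r : ℝ) * q)) * VV p N r (Y / r) := by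
    have : 0 ≤ VV p N r (Y / r) := Real.sqrt_nonneg _
    positivity
  calc C * (N * Y * (q : ℝ) ^ (p - 5)) ^ e * _ ≤ C * N ^ ((p : ℝ) * e) * _ :=
        mul_le_mul_of_nonneg_right (mul_le_mul_of_nonneg_left hb3 (by linarith)) hpos
    _ ≤ C * N ^ ((p : ℝ) * e) * ((Y * √N) * (1 / (r : ℝ) ^ 2) * (1 / (q : ℝ) ^ 2) +
      (2 * Y * N ^ (1 / 2 - 2 * δ)) * (1 / (r : ℝ) ^ 2) * (1 / (q : ℝ))) :=
        mul_le_mul_of_nonneg_left hsec (by positivity)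
    _ = _ := by ring

theorem QS3 (hQCN : QCN_stmt) (hQSM : QSM_stmt) (hQA3 : QA3_stmt) (hQP1 : QP1_stmt) (hQP2 : QP2_stmt) : QS3_stmt := by
  intro p _ h5 hMU δ c ε hδ hc hε w
  obtain ⟨_, _, hS3, hS4, hS5, _⟩ := hQSM
  have hp0 : (0 : ℝ) < p := by exact_mod_cast (by omega : 0 < p)
  set e : ℝ := min c δ / (4 * p) with he
  have hm0 : 0 < min c δ := lt_min hc hδ
  have he0 : 0 < e := by positivity
  have hpe : (p : ℝ) * e = min c δ / 4 := by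
    rw [he]
    field_simp
  obtain ⟨C, hC1, hC⟩ := hMU e he0
  obtain ⟨N₁, hN₁1, hN₁⟩ := QEV (3 * c / 4) (4 * C) (ε / 2) (by positivity) (by positivity)
  obtain ⟨N₂, hN₂1, hN₂⟩ := QEL (7 * δ / 4) (4 * C) (ε / 2) (by positivity) (by positivity)
  refine ⟨max N₁ N₂, fun N Y hN hY hY2 => ?_⟩
  have hNN1 : N₁ ≤ N := le_trans (le_max_left _ _) hN
  have hNN2 : N₂ ≤ N := le_trans (le_max_right _ _) hN
  have hN1 : 1 ≤ N := hN₁1.trans hNN1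
  have hN0 : 0 < N := by linarith
  obtain ⟨hY1, _, hY25, hsq, _⟩ := hQP2 p δ N Y h5 hδ hN1 hY hY2
  have hY0 : 0 < Y := by linarith
  have hYN : Y ≤ N := by
    refine hY25.trans ?_
    calc N ^ ((2 : ℝ) / 5) ≤ N ^ (1 : ℝ) := Real.rpow_le_rpow_of_exponent_le hN1 (by norm_num)
      _ = N := Real.rpow_one N
  set R : Finset (ℕ × ℕ) := ((PP w).divisors ×ˢ Ioc ⌊N ^ c⌋₊ ⌊Y⌋₊).filter
    (fun i => (i.1 : ℝ) * i.2 ≤ Y) with hR
  have hRmem : ∀ i ∈ R, 1 ≤ i.1 ∧ 1 ≤ i.2 ∧ (i.2 : ℝ) ≤ Y ∧ (i.1 : ℝ) * i.2 ≤ Y := by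
    intro i hi
    rw [hR, Finset.mem_filter, Finset.mem_product, Nat.mem_divisors, Finset.mem_Ioc] at hi
    obtain ⟨⟨⟨h1, h2⟩, h3, h4⟩, h6⟩ := hi
    refine ⟨Nat.pos_of_dvd_of_pos h1 (Nat.pos_of_ne_zero h2), by omega, ?_, h6⟩
    exact (Nat.le_floor_iff hY0.le).mp h4
  have hcount := hQCN Q4 (ℕ × ℕ × ℤ) (ℕ × ℕ)
    {t : Q4 | Bas p N Y t ∧ t.1 ∣ PP w ∧
      ∃ q : ℕ, q.Prime ∧ ¬ q ∣ t.1 ∧ N ^ c < q ∧ q ∣ t.2.1 ∧ (q : ℤ) ^ 2 ∣ dp p t} R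
    (fun i => {t | MS p (N / (i.2 : ℝ) ^ 2) (i.1 * i.2 ^ (p - 2)) i.1 1 (Y / ((i.1 : ℝ) * i.2)) t})
    (fun i t => (i.1, i.2 * t.1, t.2.1, (i.2 : ℤ) * t.2.2))
    (fun i => C * N ^ ((p : ℝ) * e) * (Y * √N) * (1 / (i.1 : ℝ) ^ 2) * (1 / (i.2 : ℝ) ^ 2) +
      C * N ^ ((p : ℝ) * e) * (2 * Y * N ^ (1 / 2 - 2 * δ)) * (1 / (i.1 : ℝ) ^ 2) * (1 / (i.2 : ℝ)))
    (by
      intro i hi
      obtain ⟨h1, h2, h3, h4⟩ := hRmem i hi
      have hi1 : (0 : ℝ) < i.1 := by exact_mod_cast h1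
      have hi2 : (0 : ℝ) < i.2 := by exact_mod_cast h2
      have hi2' : (1 : ℝ) ≤ i.2 := by exact_mod_cast h2
      have hq2 : 1 ≤ N / (i.2 : ℝ) ^ 2 := by
        rw [le_div_iff₀ (by positivity), one_mul]
        have h7 : (i.2 : ℝ) ≤ N ^ ((2 : ℝ) / 5) := h3.trans hY25
        calc (i.2 : ℝ) ^ 2 ≤ (N ^ ((2 : ℝ) / 5)) ^ 2 := by gcongr
          _ = N ^ ((4 : ℝ) / 5) := by
            rw [← Real.rpow_natCast, ← Real.rpow_mul hN0.le]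
            norm_num
          _ ≤ N ^ (1 : ℝ) := Real.rpow_le_rpow_of_exponent_le hN1 (by norm_num)
          _ = N := Real.rpow_one N
      have hz1 : 1 ≤ Y / ((i.1 : ℝ) * i.2) := by
        rw [le_div_iff₀ (by positivity), one_mul]
        exact h4
      obtain ⟨hf, hb⟩ := hC (N / (i.2 : ℝ) ^ 2) (Y / ((i.1 : ℝ) * i.2)) (i.1 * i.2 ^ (p - 2)) i.1 1 hq2 hz1
        (Nat.mul_pos h1 (Nat.pow_pos h2)) h1 le_rfl (dvd_mul_right _ _)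
      refine ⟨hf, hb.trans ?_⟩
      exact QS3_one p h5 hQP1 e C δ N Y i.1 i.2 he0 hC1 hN1 hY1 hYN h1 h2 (h3.trans hYN) hsq)
    (by
      rintro ⟨r, z, y, x⟩ ⟨hB, hrP, q, hqp, hqr, hqc, hqz, hqd⟩
      obtain ⟨z', x', hz', hzz, hxx, hms⟩ := hQA3 p N Y r z y q x h5 hB hqp hqr hqz hqd
      refine ⟨(r, q), ?_, (z', y, x'), hms, ?_⟩
      · rw [hR, Finset.mem_filter, Finset.mem_product, Nat.mem_divisors, Finset.mem_Ioc]
        have hr1 : 1 ≤ r := Nat.pos_of_ne_zero hB.r1.ne_zero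
        have hY2' : (r : ℝ) * z ≤ Y := hB.Y2
        have hrq : (r : ℝ) * q ≤ Y := by
          refine le_trans ?_ hY2'
          have : r * q ≤ r * z := by
            rw [hzz]
            exact Nat.mul_le_mul_left r (Nat.le_mul_of_pos_right q hz')
          exact_mod_cast this
        have hr1' : (1 : ℝ) ≤ r := by exact_mod_cast hr1
        have hqY : (q : ℝ) ≤ Y := by
          refine le_trans ?_ hrq
          have : (0 : ℝ) ≤ q := Nat.cast_nonneg q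
          nlinarith
        refine ⟨⟨⟨hrP, QS3_PP w⟩, ?_, ?_⟩, hrq⟩
        · exact (Nat.floor_lt (by positivity)).mpr hqc
        · exact Nat.le_floor hqY
      · rw [hzz, hxx])
  refine hcount.2.trans ?_
  have hNc1 : 1 ≤ N ^ c := Real.one_le_rpow hN1 hc.le
  have hsum : ∑ i ∈ R, (C * N ^ ((p : ℝ) * e) * (Y * √N) * (1 / (i.1 : ℝ) ^ 2) * (1 / (i.2 : ℝ) ^ 2) +
      C * N ^ ((p : ℝ) * e) * (2 * Y * N ^ (1 / 2 - 2 * δ)) * (1 / (i.1 : ℝ) ^ 2) * (1 / (i.2 : ℝ))) ≤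
      C * N ^ ((p : ℝ) * e) * (Y * √N) * 2 * (2 / N ^ c) +
      C * N ^ ((p : ℝ) * e) * (2 * Y * N ^ (1 / 2 - 2 * δ)) * 2 * (1 + Real.log Y) := by
    calc _ ≤ ∑ i ∈ (PP w).divisors ×ˢ Ioc ⌊N ^ c⌋₊ ⌊Y⌋₊,
          (C * N ^ ((p : ℝ) * e) * (Y * √N) * (1 / (i.1 : ℝ) ^ 2) * (1 / (i.2 : ℝ) ^ 2) +
          C * N ^ ((p : ℝ) * e) * (2 * Y * N ^ (1 / 2 - 2 * δ)) * (1 / (i.1 : ℝ) ^ 2) * (1 / (i.2 : ℝ))) := by
          apply Finset.sum_le_sum_of_subset_of_nonneg (Finset.filter_subset _ _)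
          intro i _ _
          positivity
      _ = C * N ^ ((p : ℝ) * e) * (Y * √N) * (∑ r ∈ (PP w).divisors, 1 / (r : ℝ) ^ 2) *
            (∑ q ∈ Ioc ⌊N ^ c⌋₊ ⌊Y⌋₊, 1 / (q : ℝ) ^ 2) +
          C * N ^ ((p : ℝ) * e) * (2 * Y * N ^ (1 / 2 - 2 * δ)) * (∑ r ∈ (PP w).divisors, 1 / (r : ℝ) ^ 2) *
            (∑ q ∈ Ioc ⌊N ^ c⌋₊ ⌊Y⌋₊, 1 / (q : ℝ)) := by
          rw [Finset.sum_add_distrib, Finset.sum_product, Finset.sum_product]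
          exact congrArg₂ (· + ·)
            (QS3_sum (C * N ^ ((p : ℝ) * e) * (Y * √N)) (PP w).divisors (Ioc ⌊N ^ c⌋₊ ⌊Y⌋₊)
              (fun r => 1 / (r : ℝ) ^ 2) (fun q => 1 / (q : ℝ) ^ 2))
            (QS3_sum (C * N ^ ((p : ℝ) * e) * (2 * Y * N ^ (1 / 2 - 2 * δ))) (PP w).divisors
              (Ioc ⌊N ^ c⌋₊ ⌊Y⌋₊) (fun r => 1 / (r : ℝ) ^ 2) (fun q => 1 / (q : ℝ)))
      _ ≤ _ := by
          have s5 := hS5 w
          have s3 := hS3 (N ^ c) ⌊Y⌋₊ hNc1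
          have s4 : ∑ q ∈ Ioc ⌊N ^ c⌋₊ ⌊Y⌋₊, 1 / (q : ℝ) ≤ 1 + Real.log Y := by
            refine le_trans ?_ (hS4 Y hY1)
            apply Finset.sum_le_sum_of_subset_of_nonneg
            · exact Finset.Ioc_subset_Ioc_left (Nat.zero_le _)
            · intro i _ _
              positivity
          have p3 : 0 ≤ ∑ q ∈ Ioc ⌊N ^ c⌋₊ ⌊Y⌋₊, 1 / (q : ℝ) ^ 2 := Finset.sum_nonneg fun _ _ => by positivity
          have p4 : 0 ≤ ∑ q ∈ Ioc ⌊N ^ c⌋₊ ⌊Y⌋₊, 1 / (q : ℝ) := Finset.sum_nonneg fun _ _ => by positivity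
          have p5 : 0 ≤ C * N ^ ((p : ℝ) * e) * (Y * √N) := by positivity
          have p6 : 0 ≤ C * N ^ ((p : ℝ) * e) * (2 * Y * N ^ (1 / 2 - 2 * δ)) := by positivity
          apply add_le_add
          · exact mul_le_mul (mul_le_mul_of_nonneg_left s5 p5) s3 p3 (by positivity)
          · exact mul_le_mul (mul_le_mul_of_nonneg_left s5 p6) s4 p4 (by positivity)
  refine hsum.trans ?_
  have hlogY : Real.log Y ≤ Real.log N := Real.log_le_log hY0 hYN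
  have hlogY0 : 0 ≤ Real.log Y := Real.log_nonneg hY1
  have hA := hN₁ N hNN1
  have hBB := hN₂ N hNN2
  have hpc : N ^ ((p : ℝ) * e) ≤ N ^ (c / 4) := by
    apply Real.rpow_le_rpow_of_exponent_le hN1
    rw [hpe]
    have := min_le_left c δ
    linarith
  have hpd : N ^ ((p : ℝ) * e) ≤ N ^ (δ / 4) := by
    apply Real.rpow_le_rpow_of_exponent_le hN1
    rw [hpe]
    have := min_le_right c δ
    linarith
  have hsN : N ^ (1 / 2 - 2 * δ) = √N * N ^ (-(2 * δ)) := by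
    rw [Real.sqrt_eq_rpow, ← Real.rpow_add hN0]
    congr 1
  have hYs : 0 ≤ Y * √N := by positivity
  have t1 : C * N ^ ((p : ℝ) * e) * (Y * √N) * 2 * (2 / N ^ c) ≤ ε / 2 * (Y * √N) := by
    calc C * N ^ ((p : ℝ) * e) * (Y * √N) * 2 * (2 / N ^ c) ≤
          C * N ^ (c / 4) * (Y * √N) * 2 * (2 / N ^ c) := by gcongr
      _ = 4 * C * (N ^ (c / 4) * N ^ (-c)) * (Y * √N) := by
          rw [Real.rpow_neg hN0.le]
          ring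
      _ = 4 * C * N ^ (-(3 * c / 4)) * (Y * √N) := by
          rw [← Real.rpow_add hN0]
          congr 3
          ring
      _ ≤ _ := mul_le_mul_of_nonneg_right hA hYs
  have t2 : C * N ^ ((p : ℝ) * e) * (2 * Y * N ^ (1 / 2 - 2 * δ)) * 2 * (1 + Real.log Y) ≤
      ε / 2 * (Y * √N) := by
    calc C * N ^ ((p : ℝ) * e) * (2 * Y * N ^ (1 / 2 - 2 * δ)) * 2 * (1 + Real.log Y) ≤
          C * N ^ (δ / 4) * (2 * Y * N ^ (1 / 2 - 2 * δ)) * 2 * (1 + Real.log N) := by gcongr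
      _ = 4 * C * (1 + Real.log N) * (N ^ (δ / 4) * N ^ (-(2 * δ))) * (Y * √N) := by
          rw [hsN]
          ring
      _ = 4 * C * (1 + Real.log N) * N ^ (-(7 * δ / 4)) * (Y * √N) := by
          rw [← Real.rpow_add hN0]
          congr 3
          ring
      _ ≤ _ := mul_le_mul_of_nonneg_right hBB hYs
  calc _ ≤ ε / 2 * (Y * √N) + ε / 2 * (Y * √N) := add_le_add t1 t2
    _ = ε * (Y * √N) := by ring

end Pool.Agent.AP
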